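import Pool.Agent.H36.Plt3

open Pool.Agent.H38.NP Pool.Agent.H36.Plt

theorem Pool.Agent.Results.MP_eef266_lc.PolyTime.result :
    InPOn (fun p : ℕ × List (ℕ × ℕ) => (graphOf p.1 p.2).IsTree) fun p => PathLike (graphOf p.1 p.2) :=
  inPOn_of_pt dec pt_dec fun _ h => main h.connected
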